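import Pool.Agent.Helper40.AC.Stmts

/-!
# Packet P36 of project AC: the cylinder
-/

set_option autoImplicit false

open scoped ContDiff Topology
open Filter

namespace Pool.Agent.Helper13.AC

open Pool.Agent.Helper40.AC

noncomputable section

variable {ι : Type} [Fintype ι]

/-- the space coordinates -/
def tM (ι : Type) [Fintype ι] : (Option ι → ℝ) →L[ℝ] (ι → ℝ) :=
  ContinuousLinearMap.pi fun i => ContinuousLinearMap.proj (some i)

/-- the last coordinate -/
def tS (ι : Type) [Fintype ι] : (Option ι → ℝ) →L[ℝ] ℝ := ContinuousLinearMap.proj none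

/-- a point from its coordinates -/
def mk (x : ι → ℝ) (s : ℝ) : Option ι → ℝ := fun o => o.elim s x

theorem tM_mk (x : ι → ℝ) (s : ℝ) : tM ι (mk x s) = x := rfl
theorem tS_mk (x : ι → ℝ) (s : ℝ) : tS ι (mk x s) = s := rfl
theorem mk_eta (z : Option ι → ℝ) : mk (tM ι z) (tS ι z) = z := by
  funext o
  cases o <;> rfl

theorem mk_contDiffOn {E : Type} [NormedAddCommGroup E] [NormedSpace ℝ E] {f : E → (ι → ℝ)}
    {s : E → ℝ} {A : Set E} (hf : ContDiffOn ℝ ∞ f A) (hs : ContDiffOn ℝ ∞ s A) :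
    ContDiffOn ℝ ∞ (fun p => mk (f p) (s p)) A := by
  rw [contDiffOn_pi]
  intro o
  cases o with
  | none => exact hs
  | some i => exact (contDiffOn_pi.1 hf) i

/-- the cylinder -/
def Cy (M : Set (ι → ℝ)) : Set (Option ι → ℝ) := {z | tM ι z ∈ M ∧ 0 ≤ tS ι z ∧ tS ι z ≤ 1}

theorem cy_compact {M : Set (ι → ℝ)} (hM : IsCompact M) : IsCompact (Cy M) := by
  have h1 : Cy M = (fun p : (ι → ℝ) × ℝ => mk p.1 p.2) '' (M ×ˢ Set.Icc 0 1) := by
    ext z
    constructor
    · rintro ⟨h1, h2, h3⟩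
      exact ⟨(tM ι z, tS ι z), ⟨h1, h2, h3⟩, mk_eta z⟩
    · rintro ⟨p, ⟨h1, h2, h3⟩, rfl⟩
      exact ⟨h1, h2, h3⟩
  rw [h1]
  refine (hM.prod isCompact_Icc).image ?_
  refine continuous_pi fun o => ?_
  cases o with
  | none => exact continuous_snd
  | some i => exact (continuous_apply i).comp continuous_fst

/-- a chart of the cylinder from a chart of `M` -/
theorem cy_chart {M : Set (ι → ℝ)} {n : ℕ} (hM : SmoothSubmanifold M n) {z : Option ι → ℝ}
    (hz : z ∈ Cy M) :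
    (tS ι z < 1 → ∃ (k : ℕ) (f : (Option ι → ℝ) → (Fin k → ℝ)) (U : Set (Option ι → ℝ)),
      BdryChart (Cy M) (n + 1) z f (fun y => tS ι y) U) ∧
    (0 < tS ι z → ∃ (k : ℕ) (f : (Option ι → ℝ) → (Fin k → ℝ)) (U : Set (Option ι → ℝ)),
      BdryChart (Cy M) (n + 1) z f (fun y => 1 - tS ι y) U) := by
  obtain ⟨k, f, U, hk, hU, hxU, hf, hsurj, hMU⟩ := hM _ hz.1
  have hcard : k + (n + 1) = Fintype.card (Option ι) := by
    rw [Fintype.card_option]
    omega
  have hfd : DifferentiableAt ℝ f (tM ι z) :=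
    (hf.contDiffAt (hU.mem_nhds hxU)).differentiableAt (by simp)
  have hfd' : HasFDerivAt (fun y => f (tM ι y)) ((fderiv ℝ f (tM ι z)).comp (tM ι)) z :=
    hfd.hasFDerivAt.comp z (tM ι).hasFDerivAt
  have hMU' : ∀ y ∈ U, (y ∈ M ↔ f y = 0) := by
    intro y hy
    constructor
    · intro h
      have : y ∈ M ∩ U := ⟨h, hy⟩
      rw [hMU] at this
      exact this.2
    · intro h
      have : y ∈ {y | y ∈ U ∧ f y = 0} := ⟨hy, h⟩
      rw [← hMU] at this
      exact this.1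
  constructor
  · intro hlt
    refine ⟨k, fun y => f (tM ι y), (tM ι) ⁻¹' U ∩ {y | tS ι y < 1}, hcard, ?_, ⟨hxU, hlt⟩, ?_,
      ?_, ?_, ?_⟩
    · exact (hU.preimage (tM ι).continuous).inter (isOpen_lt (tS ι).continuous continuous_const)
    · exact hf.comp (tM ι).contDiff.contDiffOn fun y hy => hy.1
    · exact (tS ι).contDiff.contDiffOn
    · rintro ⟨a, b⟩
      obtain ⟨u, hu⟩ := hsurj a
      refine ⟨mk u b, ?_⟩
      show (fderiv ℝ (fun y => f (tM ι y)) z (mk u b), fderiv ℝ (fun y => tS ι y) z (mk u b)) =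
        (a, b)
      rw [hfd'.fderiv, (tS ι).hasFDerivAt.fderiv]
      show (fderiv ℝ f (tM ι z) (tM ι (mk u b)), tS ι (mk u b)) = (a, b)
      rw [tM_mk, tS_mk, hu]
    · ext y
      constructor
      · rintro ⟨⟨h1, h2, h3⟩, h4, h5⟩
        exact ⟨⟨h4, h5⟩, (hMU' _ h4).1 h1, h2⟩
      · rintro ⟨⟨h4, h5⟩, h1, h2⟩
        exact ⟨⟨(hMU' _ h4).2 h1, h2, le_of_lt h5⟩, h4, h5⟩
  · intro hlt
    refine ⟨k, fun y => f (tM ι y), (tM ι) ⁻¹' U ∩ {y | 0 < tS ι y}, hcard, ?_, ⟨hxU, hlt⟩, ?_,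
      ?_, ?_, ?_⟩
    · exact (hU.preimage (tM ι).continuous).inter (isOpen_lt continuous_const (tS ι).continuous)
    · exact hf.comp (tM ι).contDiff.contDiffOn fun y hy => hy.1
    · exact (contDiff_const.sub (tS ι).contDiff).contDiffOn
    · rintro ⟨a, b⟩
      obtain ⟨u, hu⟩ := hsurj a
      refine ⟨mk u (-b), ?_⟩
      show (fderiv ℝ (fun y => f (tM ι y)) z (mk u (-b)),
        fderiv ℝ (fun y => 1 - tS ι y) z (mk u (-b))) = (a, b)
      have h2 : HasFDerivAt (fun y => 1 - tS ι y) (-(tS ι)) z :=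
        (tS ι).hasFDerivAt.const_sub 1
      rw [hfd'.fderiv, h2.fderiv]
      show (fderiv ℝ f (tM ι z) (tM ι (mk u (-b))), -(tS ι (mk u (-b)))) = (a, b)
      rw [tM_mk, tS_mk, hu, neg_neg]
    · ext y
      constructor
      · rintro ⟨⟨h1, h2, h3⟩, h4, h5⟩
        exact ⟨⟨h4, h5⟩, (hMU' _ h4).1 h1, sub_nonneg.2 h3⟩
      · rintro ⟨⟨h4, h5⟩, h1, h2⟩
        exact ⟨⟨(hMU' _ h4).2 h1, le_of_lt h5, sub_nonneg.1 h2⟩, h4, h5⟩

/-- curves with a given velocity in a regular zero set -/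
theorem exists_curve {k : ℕ} {f : (ι → ℝ) → (Fin k → ℝ)} {x : ι → ℝ} (hf : ContDiffAt ℝ ∞ f x)
    (hs : Function.Surjective (fderiv ℝ f x)) (h0 : f x = 0) {v : ι → ℝ}
    (hv : fderiv ℝ f x v = 0) :
    ∃ γ : ℝ → (ι → ℝ), γ 0 = x ∧ HasDerivAt γ v 0 ∧ ∀ᶠ s in 𝓝 (0 : ℝ), f (γ s) = 0 := by
  have hst : HasStrictFDerivAt f (fderiv ℝ f x) x := hf.hasStrictFDerivAt (by simp)
  have hr : (fderiv ℝ f x).range = ⊤ := LinearMap.range_eq_top.2 hs
  set w : (fderiv ℝ f x).ker := ⟨v, hv⟩ with hw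
  have h2 : HasDerivAt (fun s : ℝ => s • w) w 0 := by
    simpa using (hasDerivAt_id (0 : ℝ)).smul_const w
  refine ⟨fun s => hst.implicitFunction f (fderiv ℝ f x) hr (f x) (s • w), ?_, ?_, ?_⟩
  · show hst.implicitFunction f (fderiv ℝ f x) hr (f x) ((0 : ℝ) • w) = x
    rw [zero_smul]
    exact hst.implicitFunction_apply_image hr
  · have h3 := (hst.to_implicitFunction hr).hasFDerivAt
    exact h3.comp_hasDerivAt_of_eq (0 : ℝ) h2 (by simp)
  · have h4 := hst.map_implicitFunction_eq hr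
    have h5 : Tendsto (fun s : ℝ => (f x, s • w)) (𝓝 0) (𝓝 (f x, 0)) := by
      have : Continuous (fun s : ℝ => (f x, s • w)) :=
        continuous_const.prodMk (continuous_id.smul continuous_const)
      have h6 := this.tendsto 0
      rwa [zero_smul] at h6
    filter_upwards [h5.eventually h4] with s hs
    rw [h0] at hs ⊢
    exact hs

/-- interior points of the cylinder are not boundary points -/
theorem not_bdry {M : Set (ι → ℝ)} {n : ℕ} (hM : SmoothSubmanifold M n) {z : Option ι → ℝ}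
    (hz : tM ι z ∈ M) (hz0 : 0 < tS ι z) (hz1 : tS ι z < 1) {k' : ℕ}
    {f' : (Option ι → ℝ) → (Fin k' → ℝ)} {ρ' : (Option ι → ℝ) → ℝ} {U' : Set (Option ι → ℝ)}
    (hc : BdryChart (Cy M) (n + 1) z f' ρ' U') (hρ : ρ' z = 0) : False := by
  obtain ⟨k, f, U, hk, hU, hxU, hf, hsurj, hMU⟩ := hM _ hz
  obtain ⟨hk', hU', hzU', hf', hρ', hsurj', hB⟩ := hc
  have hfd' : HasFDerivAt f' (fderiv ℝ f' z) z :=
    ((hf'.contDiffAt (hU'.mem_nhds hzU')).differentiableAt (by simp)).hasFDerivAt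
  have hρd' : HasFDerivAt ρ' (fderiv ℝ ρ' z) z :=
    ((hρ'.contDiffAt (hU'.mem_nhds hzU')).differentiableAt (by simp)).hasFDerivAt
  have hfx : f (tM ι z) = 0 := by
    have : tM ι z ∈ M ∩ U := ⟨hz, hxU⟩
    rw [hMU] at this
    exact this.2
  have key : ∀ v : Option ι → ℝ, fderiv ℝ f (tM ι z) (tM ι v) = 0 →
      fderiv ℝ f' z v = 0 ∧ fderiv ℝ ρ' z v = 0 := by
    intro v hv
    obtain ⟨y, hy0, hyd, hyf⟩ := exists_curve (hf.contDiffAt (hU.mem_nhds hxU)) hsurj hfx hv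
    set γ : ℝ → (Option ι → ℝ) := fun s => mk (y s) (tS ι z + s * tS ι v) with hγ
    have hγ0 : γ 0 = z := by
      show mk (y 0) (tS ι z + 0 * tS ι v) = z
      rw [hy0, zero_mul, add_zero]
      exact mk_eta z
    have hγd : HasDerivAt γ v 0 := by
      rw [hasDerivAt_pi]
      intro o
      cases o with
      | none =>
        have h1 : HasDerivAt (fun s : ℝ => tS ι z + s * tS ι v) (tS ι v) 0 := by
          simpa using ((hasDerivAt_id (0 : ℝ)).mul_const (tS ι v)).const_add (tS ι z)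
        exact h1
      | some i => exact (hasDerivAt_pi.1 hyd) i
    have hmem : ∀ᶠ s in 𝓝 (0 : ℝ), f' (γ s) = 0 ∧ 0 ≤ ρ' (γ s) := by
      have h1 : ∀ᶠ s in 𝓝 (0 : ℝ), y s ∈ U := by
        have h2 : Tendsto y (𝓝 0) (𝓝 (y 0)) := hyd.continuousAt
        rw [hy0] at h2
        exact h2.eventually (hU.mem_nhds hxU)
      have h2 : ∀ᶠ s in 𝓝 (0 : ℝ), γ s ∈ U' := by
        have h3 : Tendsto γ (𝓝 0) (𝓝 (γ 0)) := hγd.continuousAt
        rw [hγ0] at h3
        exact h3.eventually (hU'.mem_nhds hzU')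
      have h3 : Continuous (fun s : ℝ => tS ι z + s * tS ι v) := by fun_prop
      have h4 : ∀ᶠ s in 𝓝 (0 : ℝ), 0 < tS ι z + s * tS ι v := by
        have := h3.tendsto 0
        simp only [zero_mul, add_zero] at this
        exact this.eventually (lt_mem_nhds hz0)
      have h5 : ∀ᶠ s in 𝓝 (0 : ℝ), tS ι z + s * tS ι v < 1 := by
        have := h3.tendsto 0
        simp only [zero_mul, add_zero] at this
        exact this.eventually (gt_mem_nhds hz1)
      filter_upwards [h1, h2, h4, h5, hyf] with s g1 g2 g4 g5 g6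
      have g7 : y s ∈ M := by
        have : y s ∈ {y | y ∈ U ∧ f y = 0} := ⟨g1, g6⟩
        rw [← hMU] at this
        exact this.1
      have g8 : γ s ∈ Cy M ∩ U' := ⟨⟨g7, g4.le, g5.le⟩, g2⟩
      rw [hB] at g8
      exact g8.2
    constructor
    · have h1 : HasDerivAt (fun s => f' (γ s)) (fderiv ℝ f' z v) 0 :=
        hfd'.comp_hasDerivAt_of_eq (0 : ℝ) hγd hγ0.symm
      have h2 : HasDerivAt (fun s => f' (γ s)) 0 0 :=
        (hasDerivAt_const (0 : ℝ) (0 : Fin k' → ℝ)).congr_of_eventuallyEq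
          (by filter_upwards [hmem] with s hs using hs.1)
      exact h1.unique h2
    · have h1 : HasDerivAt (fun s => ρ' (γ s)) (fderiv ℝ ρ' z v) 0 :=
        hρd'.comp_hasDerivAt_of_eq (0 : ℝ) hγd hγ0.symm
      refine IsLocalMin.hasDerivAt_eq_zero ?_ h1
      filter_upwards [hmem] with s hs
      show ρ' (γ 0) ≤ ρ' (γ s)
      rw [hγ0, hρ]
      exact hs.2
  -- dimensions
  set A : (Option ι → ℝ) →ₗ[ℝ] (Fin k → ℝ) :=
    ((fderiv ℝ f (tM ι z)).comp (tM ι)).toLinearMap with hA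
  set P : (Option ι → ℝ) →ₗ[ℝ] (Fin k' → ℝ) × ℝ :=
    ((fderiv ℝ f' z).prod (fderiv ℝ ρ' z)).toLinearMap with hP
  have hAs : Function.Surjective A := by
    intro a
    obtain ⟨u, hu⟩ := hsurj a
    exact ⟨mk u 0, hu⟩
  have hPs : Function.Surjective P := hsurj'
  have hle : LinearMap.ker A ≤ LinearMap.ker P := by
    intro v hv
    obtain ⟨h1, h2⟩ := key v hv
    show (fderiv ℝ f' z v, fderiv ℝ ρ' z v) = 0
    rw [h1, h2]
    rfl
  have e1 := LinearMap.finrank_range_add_finrank_ker A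
  have e2 := LinearMap.finrank_range_add_finrank_ker P
  rw [LinearMap.range_eq_top.2 hAs, finrank_top, Module.finrank_fintype_fun_eq_card,
    Module.finrank_fintype_fun_eq_card, Fintype.card_fin, Fintype.card_option] at e1
  rw [LinearMap.range_eq_top.2 hPs, finrank_top, Module.finrank_prod,
    Module.finrank_fintype_fun_eq_card, Module.finrank_fintype_fun_eq_card, Fintype.card_fin,
    Module.finrank_self, Fintype.card_option] at e2
  have e3 := Submodule.finrank_mono hle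
  rw [Fintype.card_option] at hk'
  omega

theorem mk_deriv {γ : ℝ → (ι → ℝ)} {c : ℝ} (hγ : ContDiff ℝ ∞ γ)
    (h : deriv (fun s => mk (γ s) c) 0 = 0) : deriv γ 0 = 0 := by
  have h1 : ContDiff ℝ ∞ (fun s => mk (γ s) c) := by
    rw [← contDiffOn_univ]
    exact mk_contDiffOn hγ.contDiffOn contDiffOn_const
  have h2 : HasDerivAt (fun s => mk (γ s) c) 0 0 := by
    have := (h1.differentiable (by simp) 0).hasDerivAt
    rwa [h] at this
  have h3 := (tM ι).hasFDerivAt.comp_hasDerivAt (0 : ℝ) h2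
  have h4 : HasDerivAt γ 0 0 := by
    have e : (fun s => tM ι (mk (γ s) c)) = γ := rfl
    simpa [Function.comp_def, e] using h3
  exact h4.deriv

/-- PACKET P36 -/
theorem cyl_ok : S_CYL := by
  intro ι κ _ _ V M W g n hMc hM hMV hg hgW
  refine ⟨Option ι, inferInstance, Cy M, fun z => tM ι z, fun x => mk x 0, fun w => mk (g w) 1,
    cy_compact hMc, ?_, (tM ι).continuous.continuousOn, fun z hz => hMV hz.1, ?_, ?_, ?_, ?_,
    fun _ _ => rfl, fun _ _ => rfl⟩
  · intro z hz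
    by_cases hlt : tS ι z < 1
    · obtain ⟨k, f, U, h⟩ := (cy_chart hM hz).1 hlt
      exact ⟨k, f, _, U, h⟩
    · obtain ⟨k, f, U, h⟩ := (cy_chart hM hz).2 (by linarith)
      exact ⟨k, f, _, U, h⟩
  · refine ⟨mk_contDiffOn contDiffOn_id contDiffOn_const, fun x _ y _ hxy => ?_,
      fun γ hγ _ hd h => hd (mk_deriv hγ h)⟩
    exact congrArg (tM ι) hxy
  · refine ⟨mk_contDiffOn hg.1 contDiffOn_const, fun x hx y hy hxy => ?_,
      fun γ hγ hγW hd h => ?_⟩
    · exact hg.2.1 hx hy (congrArg (tM ι) hxy)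
    · have h1 : ContDiff ℝ ∞ (fun s => g (γ s)) := hg.1.comp_contDiff hγ hγW
      exact hg.2.2 γ hγ hγW hd (mk_deriv h1 h)
  · rw [Set.disjoint_left]
    rintro z ⟨x, _, rfl⟩ ⟨w, _, hw⟩
    have h1 := congrArg (tS ι) hw
    simp only [tS_mk] at h1
    norm_num at h1
  · ext z
    constructor
    · rintro (⟨x, hx, rfl⟩ | ⟨w, hw, rfl⟩)
      · have hz : mk x 0 ∈ Cy M := ⟨hx, le_refl (0 : ℝ), zero_le_one⟩
        obtain ⟨k, f, U, h⟩ := (cy_chart hM hz).1 (by rw [tS_mk]; norm_num)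
        exact ⟨hz, k, f, _, U, h, rfl⟩
      · have hz : mk (g w) 1 ∈ Cy M :=
          ⟨hgW ▸ Set.mem_image_of_mem g hw, zero_le_one, le_refl (1 : ℝ)⟩
        obtain ⟨k, f, U, h⟩ := (cy_chart hM hz).2 (by rw [tS_mk]; norm_num)
        refine ⟨hz, k, f, _, U, h, ?_⟩
        show 1 - tS ι (mk (g w) 1) = 0
        rw [tS_mk, sub_self]
    · rintro ⟨hz, k', f', ρ', U', hc, hρ⟩
      by_cases h0 : tS ι z = 0
      · left
        refine ⟨tM ι z, hz.1, ?_⟩
        show mk (tM ι z) 0 = z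
        rw [← h0]
        exact mk_eta z
      · by_cases h1 : tS ι z = 1
        · right
          have h2 := hz.1
          rw [← hgW] at h2
          obtain ⟨w, hw, hwz⟩ := h2
          refine ⟨w, hw, ?_⟩
          show mk (g w) 1 = z
          rw [hwz, ← h1]
          exact mk_eta z
        · exact absurd hρ fun hρ => not_bdry hM hz.1 (lt_of_le_of_ne hz.2.1 (Ne.symm h0))
            (lt_of_le_of_ne hz.2.2 h1) hc hρ

end

end Pool.Agent.Helper13.AC
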